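import Pool.Agent.Helper76.TX.StU

/-!
# Project TX, module B3X: decomposition of a symbol of level `2^n` with signs
-/

set_option autoImplicit false

open Pool.Agent.Helper76.TX Pool.Agent.Helper14.CV Pool.Agent.Helper28.WK Pool.Agent.Helper78.TW

namespace Pool.Agent.Helper28.TX

private lemma sgn {d : ℕ} (a : ℤ) (ha : Int.gcd a d = 1) :
    jacobiSym a d = 1 ∨ jacobiSym a d = -1 := jacobiSym.eq_one_or_neg_one ha

private lemma idW (w : ℤ) (hw : w = 1 ∨ w = -1) (X Y : ℤ → ℤ → ℂ) :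
    (1 / 2 : ℂ) • (Y - w • X) = -(w • ((1 / 2 : ℂ) • (X - w • Y))) := by
  rcases hw with rfl | rfl <;> module

private lemma idS (w : ℤ) (hw : w = 1 ∨ w = -1) (X Y : ℤ → ℤ → ℂ) :
    (1 / 2 : ℂ) • (Y + w • X) = w • ((1 / 2 : ℂ) • (X + w • Y)) := by
  rcases hw with rfl | rfl <;> module

private lemma idN (w : ℤ) (X Y : ℤ → ℤ → ℂ) :
    (1 / 2 : ℂ) • (-X - w • -Y) = -((1 / 2 : ℂ) • (X - w • Y)) := by
  module

private lemma idM (w : ℤ) (X Y : ℤ → ℤ → ℂ) :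
    (1 / 2 : ℂ) • (-X + w • -Y) = -((1 / 2 : ℂ) • (X + w • Y)) := by
  module

private lemma idP (w e : ℤ) (X Y : ℤ → ℤ → ℂ) :
    (1 / 2 : ℂ) • (-(w • X) + e • -(w • Y)) = -(w • ((1 / 2 : ℂ) • (X + e • Y))) := by
  have h : e • -(w • Y) = -(w • (e • Y)) := by
    rw [smul_neg, smul_comm]
  rw [h, smul_comm w (1 / 2 : ℂ), smul_add w, ← neg_add, smul_neg]

theorem hB3x : StB3x := by
  intro hNrm hCom hLvl hEv d n G hd hn hG
  have hn2 : 2 ≤ n := by omega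
  have hpow1 : (2 : ℤ) ^ n ≠ 0 := pow_ne_zero _ two_ne_zero
  have dt : (2 : ℤ) * 2 - 1 * 0 ≠ 0 := by norm_num
  have ds : (1 : ℤ) * 1 - 0 * 2 ^ (n - 1) ≠ 0 := by norm_num
  have dW : (0 : ℤ) * 0 - (-1) * 2 ^ n ≠ 0 := by
    intro h
    apply hpow1
    linarith
  have dx : (-1 : ℤ) * 1 - 0 * 0 ≠ 0 := by norm_num
  have hw0 : jacobiSym (-(2 ^ n)) d = 1 ∨ jacobiSym (-(2 ^ n)) d = -1 := by
    refine sgn _ ?_
    rw [Int.neg_gcd, ← Int.isCoprime_iff_gcd_eq_one]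
    refine IsCoprime.pow_left ?_
    rw [Int.isCoprime_iff_gcd_eq_one]
    exact (Nat.coprime_two_left.2 hd)
  have he0 : jacobiSym (-1) d = 1 ∨ jacobiSym (-1) d = -1 := by
    refine sgn _ ?_
    rw [Int.neg_gcd, Int.one_gcd]
  have evW : ∀ X : ℤ → ℤ → ℂ, Sym 0 n X → evX d (act 0 (-1) (2 ^ n) 0 X) =
      (-(jacobiSym (-(2 ^ n)) d)) • evX d X := fun X hX => (hEv d n X hd hn2 hX).1
  have evS : ∀ X : ℤ → ℤ → ℂ, Sym 0 n X → evX d (act (-1) 0 0 1 X) =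
      (jacobiSym (-1) d) • evX d X := fun X hX => (hEv d n X hd hn2 hX).2
  generalize jacobiSym (-(2 ^ n)) d = w at hw0 evW ⊢
  generalize jacobiSym (-1) d = e at he0 evS ⊢
  -- the symbols
  set A : ℤ → ℤ → ℂ := (1 / 2 : ℂ) • (G + act 2 1 0 2 G) with hA
  set B : ℤ → ℤ → ℂ := (1 / 2 : ℂ) • (G - act 2 1 0 2 G) with hB
  set C : ℤ → ℤ → ℂ := (1 / 2 : ℂ) • (B + act 1 0 (2 ^ (n - 1)) 1 B) with hC
  set E : ℤ → ℤ → ℂ := (1 / 2 : ℂ) • (B - act 1 0 (2 ^ (n - 1)) 1 B) with hE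
  set F : ℤ → ℤ → ℂ := (1 / 2 : ℂ) • (E - w • act 0 (-1) (2 ^ n) 0 E) with hF
  set G1 : ℤ → ℤ → ℂ := (1 / 2 : ℂ) • (F + e • act (-1) 0 0 1 F) with hG1
  have subS : ∀ X Y : ℤ → ℤ → ℂ, Sym 0 n X → Sym 0 n Y → Sym 0 n (X - Y) := by
    intro X Y hX hY
    rw [sub_eq_add_neg]
    exact hX.add hY.neg
  have sA : Sym 0 n A := (hG.add (hNrm n G hn2 hG).2.1).smul _
  have sB : Sym 0 n B := (subS _ _ hG (hNrm n G hn2 hG).2.1).smul _
  have sC : Sym 0 n C := (sB.add (hNrm n B hn2 sB).2.2.1).smul _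
  have sE : Sym 0 n E := (subS _ _ sB (hNrm n B hn2 sB).2.2.1).smul _
  have sF : Sym 0 n F := (subS _ _ sE ((hNrm n E hn2 sE).1.smul w)).smul _
  have sG1 : Sym 0 n G1 := (sF.add ((hNrm n F hn2 sF).2.2.2.smul e)).smul _
  -- relations
  have tA : EqC (act 2 1 0 2 A) A := by
    have h := ((EqC.refl (act 2 1 0 2 G)).add (hCom n G hn hG).1).smul (1 / 2 : ℂ)
    rw [add_comm (act 2 1 0 2 G) G] at h
    exact h
  have tB : EqC (act 2 1 0 2 B) (-B) := by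
    have h := ((EqC.refl (act 2 1 0 2 G)).sub (hCom n G hn hG).1).smul (1 / 2 : ℂ)
    have e1 : (1 / 2 : ℂ) • (act 2 1 0 2 G - G) = -B := by
      rw [hB]
      module
    rw [e1] at h
    exact h
  have sCC : EqC (act 1 0 (2 ^ (n - 1)) 1 C) C := by
    have h := ((EqC.refl (act 1 0 (2 ^ (n - 1)) 1 B)).add (hCom n B hn sB).2.1).smul (1 / 2 : ℂ)
    rw [add_comm (act 1 0 (2 ^ (n - 1)) 1 B) B] at h
    exact h
  have sEE : EqC (act 1 0 (2 ^ (n - 1)) 1 E) (-E) := by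
    have h := ((EqC.refl (act 1 0 (2 ^ (n - 1)) 1 B)).sub (hCom n B hn sB).2.1).smul (1 / 2 : ℂ)
    have e1 : (1 / 2 : ℂ) • (act 1 0 (2 ^ (n - 1)) 1 B - B) = -E := by
      rw [hE]
      module
    rw [e1] at h
    exact h
  have tE : EqC (act 2 1 0 2 E) (-E) := by
    have h1 : EqC (act 2 1 0 2 (act 1 0 (2 ^ (n - 1)) 1 B)) (-(act 1 0 (2 ^ (n - 1)) 1 B)) := by
      refine (hCom n B hn sB).2.2.2.2.1.trans ?_
      have := tB.act ds
      rw [act_neg] at this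
      exact this
    have h := (tB.sub h1).smul (1 / 2 : ℂ)
    have e1 : (1 / 2 : ℂ) • (-B - -(act 1 0 (2 ^ (n - 1)) 1 B)) = -E := by
      rw [hE]
      module
    rw [e1] at h
    exact h
  have WF : EqC (act 0 (-1) (2 ^ n) 0 F) (-(w • F)) := by
    have h := ((EqC.refl (act 0 (-1) (2 ^ n) 0 E)).sub
      ((hCom n E hn sE).2.2.1.smul w)).smul (1 / 2 : ℂ)
    rw [idW w hw0 E] at h
    exact h
  have tF : EqC (act 2 1 0 2 F) (-F) := by
    have h1 : EqC (act 2 1 0 2 (act 0 (-1) (2 ^ n) 0 E)) (-(act 0 (-1) (2 ^ n) 0 E)) := by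
      refine (hCom n E hn sE).2.2.2.2.2.1.trans ?_
      have := sEE.act dW
      rw [act_neg] at this
      exact this
    have h := (tE.sub (h1.smul w)).smul (1 / 2 : ℂ)
    rw [idN] at h
    exact h
  have sFF : EqC (act 1 0 (2 ^ (n - 1)) 1 F) (-F) := by
    have h1 : EqC (act 1 0 (2 ^ (n - 1)) 1 (act 0 (-1) (2 ^ n) 0 E))
        (-(act 0 (-1) (2 ^ n) 0 E)) := by
      refine (hCom n E hn sE).2.2.2.2.2.2.1.trans ?_
      have := tE.act dW
      rw [act_neg] at this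
      exact this
    have h := (sEE.sub (h1.smul w)).smul (1 / 2 : ℂ)
    rw [idN] at h
    exact h
  have xG1 : EqC (act (-1) 0 0 1 G1) (e • G1) := by
    have h := ((EqC.refl (act (-1) 0 0 1 F)).add
      ((hCom n F hn sF).2.2.2.1.smul e)).smul (1 / 2 : ℂ)
    rw [idS e he0 F] at h
    exact h
  have tG1 : EqC (act 2 1 0 2 G1) (-G1) := by
    have h1 : EqC (act 2 1 0 2 (act (-1) 0 0 1 F)) (-(act (-1) 0 0 1 F)) := by
      refine (hCom n F hn sF).2.2.2.2.2.2.2.1.trans ?_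
      have := tF.act dx
      rw [act_neg] at this
      exact this
    have h := (tF.add (h1.smul e)).smul (1 / 2 : ℂ)
    rw [idM] at h
    exact h
  have sG1' : EqC (act 1 0 (2 ^ (n - 1)) 1 G1) (-G1) := by
    have h1 : EqC (act 1 0 (2 ^ (n - 1)) 1 (act (-1) 0 0 1 F)) (-(act (-1) 0 0 1 F)) := by
      refine (hCom n F hn sF).2.2.2.2.2.2.2.2.1.trans ?_
      have := sFF.act dx
      rw [act_neg] at this
      exact this
    have h := (sFF.add (h1.smul e)).smul (1 / 2 : ℂ)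
    rw [idM] at h
    exact h
  have WG1 : EqC (act 0 (-1) (2 ^ n) 0 G1) (-(w • G1)) := by
    have h1 : EqC (act 0 (-1) (2 ^ n) 0 (act (-1) 0 0 1 F)) (-(w • act (-1) 0 0 1 F)) := by
      refine (hCom n F hn sF).2.2.2.2.2.2.2.2.2.trans ?_
      have := WF.act dx
      rw [act_neg, act_smul] at this
      exact this
    have h := (WF.add (h1.smul e)).smul (1 / 2 : ℂ)
    rw [idP] at h
    exact h
  have lA : Sym 0 (n - 1) (act 0 (-1) (2 ^ n) 0 A) := (hLvl n A hn2 sA).2 tA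
  have lC : Sym 0 (n - 1) C := (hLvl n C hn2 sC).1 sCC
  refine ⟨C + -(w • act 0 (-1) (2 ^ n) 0 A), G1, lC.add (lA.smul w).neg,
    ⟨sG1, tG1, sG1', WG1, xG1⟩, ?_⟩
  have ww : ∀ Z : ℕ → ℕ → ℂ, w • w • Z = Z := by
    intro Z
    rcases hw0 with rfl | rfl <;> simp
  have ee : ∀ Z : ℕ → ℕ → ℂ, e • e • Z = Z := by
    intro Z
    rcases he0 with rfl | rfl <;> simp
  have eA := evW A sA
  have eE := evW E sE
  have eF := evS F sF
  have e2 : evX d G = evX d A + evX d B := by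
    rw [hA, hB, map_smul, map_smul, map_add, map_sub]
    module
  have e3 : evX d B = evX d C + evX d E := by
    rw [hC, hE]
    simp only [map_smul, map_add, map_sub]
    module
  have e4 : evX d F = evX d E := by
    rw [hF, map_smul, map_sub, map_zsmul, eE, neg_smul, smul_neg, ww]
    module
  have e5 : evX d G1 = evX d F := by
    rw [hG1, map_smul, map_add, map_zsmul, eF, ee]
    module
  have e6 : evX d (C + -(w • act 0 (-1) (2 ^ n) 0 A)) = evX d C + evX d A := by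
    rw [map_add, map_neg, map_zsmul, eA, neg_smul, smul_neg, ww, neg_neg]
  rw [e6, e5, e4, e2, e3]
  abel

end Pool.Agent.Helper28.TX
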